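import Pool.Agent.N892.UP.Calc

set_option autoImplicit false

namespace Pool.Agent.N892.UP

open MeasureTheory Metric Set Filter Topology ENNReal NNReal

/-- mesh cell of the time interval -/
def cell (ℓ : ℝ) (k : ℤ) : Set unitInterval := {s | ⌊(s : ℝ) / ℓ⌋ = k}

theorem cell_dist {ℓ : ℝ} (hℓ : 0 < ℓ) {k : ℤ} {s t : unitInterval} (hs : s ∈ cell ℓ k)
    (ht : t ∈ cell ℓ k) : dist s t ≤ ℓ := by
  have h1 : ⌊(s : ℝ) / ℓ⌋ = k := hs
  have h2 : ⌊(t : ℝ) / ℓ⌋ = k := ht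
  have h3 : |(s : ℝ) / ℓ - (t : ℝ) / ℓ| < 1 := Int.abs_sub_lt_one_of_floor_eq_floor (h1.trans h2.symm)
  have h4 : (s : ℝ) / ℓ - (t : ℝ) / ℓ = ((s : ℝ) - t) / ℓ := by ring
  rw [h4, abs_div, abs_of_pos hℓ, div_lt_one hℓ] at h3
  exact h3.le

theorem measurableSet_cell (ℓ : ℝ) (k : ℤ) : MeasurableSet (cell ℓ k) :=
  measurableSet_eq_fun (by fun_prop) measurable_const

theorem volume_cell {ℓ : ℝ} (hℓ : 0 < ℓ) {k : ℤ} (h0 : 0 ≤ k) (h1 : k < ⌊1 / ℓ⌋) :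
    volume (cell ℓ k) = ENNReal.ofReal ℓ := by
  have h2 : ((k:ℝ) + 1) ≤ 1 / ℓ := by
    have : k + 1 ≤ ⌊1 / ℓ⌋ := h1
    have := Int.le_floor.1 this
    push_cast at this
    exact this
  have h3 : ((k:ℝ) + 1) * ℓ ≤ 1 := by rwa [le_div_iff₀ hℓ] at h2
  have h4 : (0:ℝ) ≤ k := by exact_mod_cast h0
  have h5 : (k:ℝ) * ℓ ∈ unitInterval := ⟨by positivity, by nlinarith⟩
  have h6 : ((k:ℝ) + 1) * ℓ ∈ unitInterval := ⟨by positivity, h3⟩
  have h7 : cell ℓ k = Ico (⟨(k:ℝ) * ℓ, h5⟩ : unitInterval) ⟨((k:ℝ) + 1) * ℓ, h6⟩ := by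
    ext s
    simp only [cell, mem_ofPred_eq, mem_Ico, ← Subtype.coe_le_coe, ← Subtype.coe_lt_coe]
    rw [Int.floor_eq_iff, le_div_iff₀ hℓ, div_lt_iff₀ hℓ]
  rw [h7, unitInterval.volume_Ico]
  congr 1
  ring

theorem cell_range {ℓ : ℝ} (hℓ : 0 < ℓ) (s : unitInterval) :
    0 ≤ ⌊(s:ℝ) / ℓ⌋ ∧ ⌊(s:ℝ) / ℓ⌋ ≤ ⌊1 / ℓ⌋ := by
  refine ⟨Int.floor_nonneg.2 (div_nonneg s.2.1 hℓ.le), Int.floor_le_floor ?_⟩
  exact div_le_div_of_nonneg_right s.2.2 hℓ.le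

theorem cells_card {ℓ : ℝ} (hℓ : 0 < ℓ) (A B : Set unitInterval)
    (hAB : ∀ s ∈ A, ∀ t, dist s t ≤ ℓ → t ∈ B) :
    ∃ S : Finset ℤ, (∀ s ∈ A, ⌊(s:ℝ) / ℓ⌋ ∈ S) ∧ (∀ k ∈ S, ∃ s ∈ A, ⌊(s:ℝ) / ℓ⌋ = k) ∧
      (S.card : ℝ) ≤ 1 + (volume B).toReal / ℓ := by
  classical
  set N := ⌊1 / ℓ⌋ with hN
  set S := (Finset.Icc 0 N).filter (fun k => ∃ s ∈ A, ⌊(s:ℝ) / ℓ⌋ = k) with hS
  refine ⟨S, fun s hs => ?_, fun k hk => (Finset.mem_filter.1 hk).2, ?_⟩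
  · exact Finset.mem_filter.2 ⟨Finset.mem_Icc.2 (cell_range hℓ s), s, hs, rfl⟩
  · set S' := S.erase N with hS'
    have h1 : ∀ k ∈ S', volume (cell ℓ k) = ENNReal.ofReal ℓ := by
      intro k hk
      have h2 := Finset.mem_erase.1 hk
      have h3 := Finset.mem_Icc.1 (Finset.mem_filter.1 h2.2).1
      exact volume_cell hℓ h3.1 (lt_of_le_of_ne h3.2 h2.1)
    have h4 : (⋃ k ∈ S', cell ℓ k) ⊆ B := by
      intro t ht
      obtain ⟨k, hk, htk⟩ := mem_iUnion₂.1 ht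
      obtain ⟨s, hs, hsk⟩ := (Finset.mem_filter.1 (Finset.mem_erase.1 hk).2).2
      exact hAB s hs t (cell_dist hℓ hsk htk)
    have h5 : volume (⋃ k ∈ S', cell ℓ k) = ∑ k ∈ S', volume (cell ℓ k) := by
      refine measure_biUnion_finset ?_ fun k _ => measurableSet_cell ℓ k
      intro k _ k' _ hkk'
      rw [Function.onFun, Set.disjoint_left]
      intro s hs hs'
      exact hkk' (hs.symm.trans hs')
    rw [Finset.sum_congr rfl h1, Finset.sum_const, nsmul_eq_mul] at h5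
    have h6 : (S'.card : ℝ) * ℓ ≤ (volume B).toReal := by
      have h7 := measure_mono (μ := (volume : Measure unitInterval)) h4
      rw [h5] at h7
      have h8 := ENNReal.toReal_mono (measure_ne_top _ _) h7
      rw [ENNReal.toReal_mul, ENNReal.toReal_ofReal hℓ.le] at h8
      simpa using h8
    have h7 : (S.card : ℝ) ≤ S'.card + 1 := by
      have h10 : S.card - 1 ≤ S'.card := by
        rw [hS']
        convert Finset.pred_card_le_card_erase (s := S) (a := N)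
      have h9 : S.card ≤ S'.card + 1 := by omega
      exact_mod_cast h9
    have h8 : (S'.card : ℝ) ≤ (volume B).toReal / ℓ := by
      rw [le_div_iff₀ hℓ]; exact h6
    linarith

variable {Y : Type*} [PseudoMetricSpace Y]

/-- The two properties of a curve `F` (in natural time `T * s`) used below. -/
structure Ctl (F : unitInterval → Y) (C C2 κ T : ℝ) : Prop where
  up : ∀ᶠ h in 𝓝[>] (0:ℝ), ∀ s t, dist s t * T ≤ h → dist (F s) (F t) ≤ om C h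
  cells : ∀ᶠ r in 𝓝[>] (0:ℝ), ∀ (y : Y) (ℓ : ℝ), 0 < ℓ → ℓ * T ≤ lam κ r →
    ∃ S : Finset ℤ, (∀ s, F s ∈ closedBall y r → ⌊(s:ℝ) / ℓ⌋ ∈ S) ∧
      (∀ k ∈ S, ∃ s, F s ∈ closedBall y r ∧ ⌊(s:ℝ) / ℓ⌋ = k) ∧
      (S.card : ℝ) ≤ 1 + occ C2 (2 * r) / (ℓ * T)

theorem Ctl.of_curve {F : unitInterval → Y} {C C2 κ T : ℝ} (hC : 0 < C) (hκ : 0 < κ) (hT : 0 < T)
    (hCκ : C * (κ ^ (4/7 : ℝ) * (3:ℝ) ^ (3/7 : ℝ)) ≤ 1)
    (h1 : ∀ᶠ h in 𝓝[>] (0:ℝ), ∀ s t, dist s t * T ≤ h → dist (F s) (F t) ≤ om C h)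
    (h2 : ∀ᶠ r in 𝓝[>] (0:ℝ), ∀ y : Y,
      T * (volume {s | F s ∈ closedBall y r}).toReal ≤ occ C2 r) : Ctl F C C2 κ T := by
  refine ⟨h1, ?_⟩
  have h3 : ∀ᶠ r in 𝓝[>] (0:ℝ), ∀ y : Y,
      T * (volume {s | F s ∈ closedBall y (2 * r)}).toReal ≤ occ C2 (2 * r) := by
    have : Tendsto (fun r : ℝ => 2 * r) (𝓝[>] 0) (𝓝[>] 0) := by
      refine tendsto_nhdsWithin_iff.2 ⟨?_, ?_⟩
      · have : Tendsto (fun r : ℝ => 2 * r) (𝓝 0) (𝓝 (2 * 0)) := (continuous_const_mul 2).tendsto 0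
        rw [mul_zero] at this
        exact this.mono_left nhdsWithin_le_nhds
      · filter_upwards [self_mem_nhdsWithin] with r hr
        have hr : (0:ℝ) < r := hr
        show (0:ℝ) < 2 * r
        positivity
    exact this.eventually h2
  filter_upwards [(tendsto_lam' hκ).eventually h1, h3, om_lam hC hκ hCκ] with r k1 k2 k3 y ℓ hℓ hℓT
  obtain ⟨S, g1, g2, g3⟩ := cells_card hℓ {s | F s ∈ closedBall y r}
    {s | F s ∈ closedBall y (2 * r)} (by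
      intro s hs t hst
      have hs : dist (F s) y ≤ r := hs
      have := (k1 s t ((mul_le_mul_of_nonneg_right hst hT.le).trans hℓT)).trans k3
      show dist (F t) y ≤ 2 * r
      calc dist (F t) y ≤ dist (F t) (F s) + dist (F s) y := dist_triangle _ _ _
        _ ≤ r + r := by rw [dist_comm (F t)]; gcongr
        _ = 2 * r := by ring)
  refine ⟨S, g1, g2, g3.trans ?_⟩
  have k4 := k2 y
  have : (volume {s | F s ∈ closedBall y (2 * r)}).toReal / ℓ ≤ occ C2 (2 * r) / (ℓ * T) := by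
    rw [div_le_div_iff₀ hℓ (by positivity)]
    calc (volume {s | F s ∈ closedBall y (2 * r)}).toReal * (ℓ * T)
        = (T * (volume {s | F s ∈ closedBall y (2 * r)}).toReal) * ℓ := by ring
      _ ≤ occ C2 (2 * r) * ℓ := by gcongr
  linarith

/-- the graph -/
theorem Ctl.graph {F : unitInterval → Y} {C C2 κ T : ℝ} (hC : 0 < C) (hT : 0 < T)
    (h : Ctl F C C2 κ T) : Ctl (fun s => (s, F s)) C C2 κ T := by
  refine ⟨?_, ?_⟩
  · filter_upwards [h.up, graph_calc hC hT] with r k1 k2 s t hst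
    rw [Prod.dist_eq]
    refine max_le (le_trans ?_ k2) (k1 s t hst)
    rw [le_div_iff₀ hT]
    exact hst
  · filter_upwards [h.cells] with r k1 y ℓ hℓ hℓT
    classical
    obtain ⟨S, g1, g2, g3⟩ := k1 y.2 ℓ hℓ hℓT
    refine ⟨S.filter (fun k => ∃ s, (s, F s) ∈ closedBall y r ∧ ⌊(s:ℝ) / ℓ⌋ = k), ?_, ?_, ?_⟩
    · intro s hs
      refine Finset.mem_filter.2 ⟨g1 s ?_, s, hs, rfl⟩
      have := mem_closedBall.1 hs
      rw [Prod.dist_eq] at this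
      exact (le_max_right _ _).trans this
    · intro k hk
      exact (Finset.mem_filter.1 hk).2
    · refine le_trans ?_ g3
      exact_mod_cast Finset.card_filter_le _ _

theorem Ctl.good {F : unitInterval → Y} {C C2 κ T : ℝ} (hC : 0 < C) (hC2 : 0 < C2) (hκ : 0 < κ)
    (hT : 0 < T) (hCκ : C * (κ ^ (4/7 : ℝ) * (3:ℝ) ^ (3/7 : ℝ)) ≤ 1)
    (h : Ctl F C C2 κ T) (ε : ℝ) (hε : 0 < ε) :
    ∀ᶠ r : ℝ in 𝓝[>] 0, GoodAt F ((7/4 : ℝ≥0) + ε) (2 * ε) r := by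
  have e : ((7/4 : ℝ≥0) : ℝ) = 7/4 := by push_cast; norm_num
  rw [e]
  filter_upwards [(tendsto_lam' hκ).eventually h.up, h.cells, om_lam hC hκ hCκ,
    pow_le_lam hκ hε hT, count_pow hC2 hε hT, self_mem_nhdsWithin] with r k1 k2 k3 k4 k5 hr
  have hr : (0:ℝ) < r := hr
  have hℓ : 0 < r ^ (7/4 + ε) := by positivity
  refine ⟨fun s t hst => (k1 s t ((mul_le_mul_of_nonneg_right hst hT.le).trans k4)).trans k3,
    fun y => ?_⟩
  obtain ⟨S, g1, -, g3⟩ := k2 y _ hℓ k4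
  refine ⟨ℤ, S, fun k => cell (r ^ (7/4 + ε)) k, g3.trans k5, fun k _ s hs t ht =>
    cell_dist hℓ hs ht, fun s hs => ?_⟩
  exact mem_iUnion₂.2 ⟨_, g1 s hs, rfl⟩

end Pool.Agent.N892.UP
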