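import Mathlib

/-!
# Dimensions used in the uniform dimension results

Covering by balls, upper and lower box dimension, packing dimension, Assouad spectrum, in a
(pseudo-)metric space, and mesh sums of measures.
-/

set_option autoImplicit false

namespace Pool.Agent.N892.UP

open MeasureTheory Metric Set Filter Topology ENNReal NNReal

variable {X Y : Type*}

/-- `E` is covered by at most `x` closed balls of radius `r`. -/
def CovBy [PseudoMetricSpace X] (E : Set X) (r x : ℝ) : Prop :=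
  ∃ C : Finset X, E ⊆ ⋃ c ∈ C, closedBall c r ∧ (C.card : ℝ) ≤ x

/-- Upper box (Minkowski) dimension: the infimum of all `s ≥ 0` such that `E` is covered by at most
`r ^ (-s)` balls of radius `r` for all small `r > 0`. -/
noncomputable def upperBoxDim [PseudoMetricSpace X] (E : Set X) : ℝ≥0∞ :=
  ⨅ (s : ℝ≥0) (_ : ∀ᶠ r : ℝ in 𝓝[>] 0, CovBy E r (r ^ (-(s : ℝ)))), (s : ℝ≥0∞)

/-- Lower box (Minkowski) dimension: the infimum of all `s ≥ 0` such that `E` is covered by at most
`r ^ (-s)` balls of radius `r` for arbitrarily small `r > 0`. -/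
noncomputable def lowerBoxDim [PseudoMetricSpace X] (E : Set X) : ℝ≥0∞ :=
  ⨅ (s : ℝ≥0) (_ : ∃ᶠ r : ℝ in 𝓝[>] 0, CovBy E r (r ^ (-(s : ℝ)))), (s : ℝ≥0∞)

/-- Packing dimension: the infimum, over all countable covers of `E`, of the supremum of the upper
box dimensions of the sets of the cover. -/
noncomputable def packDim [PseudoMetricSpace X] (E : Set X) : ℝ≥0∞ :=
  ⨅ (U : ℕ → Set X) (_ : E ⊆ ⋃ n, U n), ⨆ n, upperBoxDim (U n)

/-- Assouad spectrum at `θ ∈ (0,1)`: the infimum of all `s ≥ 0` such that, for all small `r > 0`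
and all points `x`, the set `E ∩ B(x, r)` is covered by at most `(r / r ^ (1/θ)) ^ s` balls of
radius `r ^ (1/θ)`. -/
noncomputable def assouadSpec [PseudoMetricSpace X] (θ : ℝ) (E : Set X) : ℝ≥0∞ :=
  ⨅ (s : ℝ≥0) (_ : ∀ᶠ r : ℝ in 𝓝[>] 0, ∀ x : X,
    CovBy (E ∩ closedBall x r) (r ^ (1 / θ)) ((r / r ^ (1 / θ)) ^ (s : ℝ))), (s : ℝ≥0∞)

end Pool.Agent.N892.UP
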