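import Pool.Agent.N892.UP.Dims

set_option autoImplicit false

namespace Pool.Agent.N892.UP

open MeasureTheory Metric Set Filter Topology ENNReal NNReal

variable {X Y : Type*} [PseudoMetricSpace X] [PseudoMetricSpace Y]

theorem tendsto_pow {b : ℝ} (hb : 0 < b) : Tendsto (fun r : ℝ => r ^ b) (𝓝[>] 0) (𝓝[>] 0) := by
  refine tendsto_nhdsWithin_iff.2 ⟨?_, ?_⟩
  · have h : Tendsto (fun r : ℝ => r ^ b) (𝓝 0) (𝓝 ((0:ℝ) ^ b)) :=
      (Real.continuousAt_rpow_const 0 b (Or.inr hb.le))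
    rw [Real.zero_rpow hb.ne'] at h
    exact h.mono_left nhdsWithin_le_nhds
  · filter_upwards [self_mem_nhdsWithin] with r hr
    exact Real.rpow_pos_of_pos hr b

theorem ev_pow {P : ℝ → Prop} {b : ℝ} (hb : 0 < b) (h : ∀ᶠ r in 𝓝[>] (0:ℝ), P r) :
    ∀ᶠ r in 𝓝[>] (0:ℝ), P (r ^ b) := (tendsto_pow hb).eventually h

theorem fr_pow {P : ℝ → Prop} {b : ℝ} (hb : 0 < b) (h : ∃ᶠ r in 𝓝[>] (0:ℝ), P r) :
    ∃ᶠ r in 𝓝[>] (0:ℝ), P (r ^ b) := by
  have h1 : 0 < 1 / b := by positivity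
  refine (tendsto_pow h1).frequently (p := fun r => P (r ^ b)) ?_
  have h2 := h.and_eventually self_mem_nhdsWithin
  refine h2.mono fun r hr => ?_
  have h3 : (0:ℝ) < r := hr.2
  show P ((r ^ (1 / b)) ^ b)
  rw [← Real.rpow_mul h3.le, one_div_mul_cancel hb.ne', Real.rpow_one]
  exact hr.1

/-- property of a scale used below -/
def GoodAt (F : X → Y) (b c r : ℝ) : Prop :=
    (∀ s t, dist s t ≤ r ^ b → dist (F s) (F t) ≤ r) ∧
    ∀ y : Y, ∃ (ι : Type) (S : Finset ι) (U : ι → Set X), (S.card : ℝ) ≤ r ^ (-c) ∧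
      (∀ i ∈ S, ∀ s ∈ U i, ∀ t ∈ U i, dist s t ≤ r ^ b) ∧
      F ⁻¹' (closedBall y r) ⊆ ⋃ i ∈ S, U i

theorem covBy_of_small {E : Set X} {ℓ : ℝ} (h : ∀ s ∈ E, ∀ t ∈ E, dist s t ≤ ℓ) :
    CovBy E ℓ 1 := by
  classical
  rcases E.eq_empty_or_nonempty with rfl | ⟨x, hx⟩
  · exact ⟨∅, by simp, by simp⟩
  · refine ⟨{x}, fun s hs => ?_, by simp⟩
    simpa using h s hs x hx

theorem GoodAt.back {F : X → Y} {b c r x : ℝ} (h : GoodAt F b c r) (hr : 0 < r)
    {E : Set X} {E' : Set Y} (hE : E ⊆ F ⁻¹' E') (hE' : CovBy E' r x) :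
    CovBy E (r ^ b) (x * r ^ (-c)) := by
  classical
  obtain ⟨C, h1, h2⟩ := hE'
  refine CovBy.biUnion C (V := fun c => F ⁻¹' (closedBall c r)) ?_ ?_ h2 (by positivity)
  · intro s hs
    obtain ⟨c, hc, hsc⟩ := mem_iUnion₂.1 (h1 (hE hs))
    exact mem_iUnion₂.2 ⟨c, hc, hsc⟩
  · intro y _
    obtain ⟨ι, S, U, h3, h4, h5⟩ := h.2 y
    have h6 := CovBy.biUnion (x := 1) S h5 (fun i hi => covBy_of_small (h4 i hi)) h3 (by norm_num)
    rwa [mul_one] at h6

section
variable {F : X → Y} {a : ℝ≥0}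

theorem upper_eq (ha : 0 < a) (hF : ∀ ε : ℝ, 0 < ε → ∀ᶠ r : ℝ in 𝓝[>] 0, GoodAt F (a + ε) (2 * ε) r)
    (E : Set X) : upperBoxDim (F '' E) = a * upperBoxDim E := by
  refine dimOf_mul ha (fun s hs η hη => ?_) (fun s hs η hη => ?_)
  · set ε : ℝ≥0 := η / (s + 1) with hε
    have hε0 : 0 < ε := by positivity
    have hb : (0:ℝ) < a + ε := by positivity
    refine ⟨(a + ε) * s, ?_, ?_⟩
    · filter_upwards [hF ε hε0, ev_pow hb hs, self_mem_nhdsWithin] with r h1 h2 h3
      have h3 : (0:ℝ) < r := h3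
      rw [← Real.rpow_mul h3.le] at h2
      refine (CovBy.image h1.1 h2).mono le_rfl (le_of_eq ?_)
      congr 1
      push_cast
      ring
    · rw [add_mul]
      gcongr
      rw [hε, div_mul_eq_mul_div]
      refine div_le_of_le_mul₀ (by positivity) (by positivity) ?_
      gcongr
      exact le_add_of_nonneg_right zero_le_one
  · set ε : ℝ≥0 := η / 2 with hε
    have hε0 : 0 < ε := by positivity
    have hb : (0:ℝ) < a + ε := by positivity
    refine ⟨(s + 2 * ε) / (a + ε), ?_, ?_⟩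
    · have h0 := (hF ε hε0).and (hs.and self_mem_nhdsWithin)
      filter_upwards [ev_pow (b := 1 / (a + ε)) (by positivity) h0, self_mem_nhdsWithin] with ρ h1 h2
      have h2 : (0:ℝ) < ρ := h2
      obtain ⟨h3, h4, h5⟩ := h1
      have h5 : (0:ℝ) < ρ ^ (1 / ((a:ℝ) + ε)) := h5
      have h6 := h3.back h5 (E := E) (subset_preimage_image F E) h4
      rw [← Real.rpow_mul h2.le, one_div_mul_cancel hb.ne', Real.rpow_one,
        ← Real.rpow_add h5, ← Real.rpow_mul h2.le] at h6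
      refine h6.mono le_rfl (le_of_eq ?_)
      congr 1
      push_cast
      field_simp
      ring
    · have h1 : a / (a + ε) ≤ 1 := div_le_one_of_le₀ (le_add_of_nonneg_right (by positivity)) (by positivity)
      calc a * ((s + 2 * ε) / (a + ε)) = (a / (a + ε)) * (s + 2 * ε) := by ring
        _ ≤ 1 * (s + 2 * ε) := by gcongr
        _ = s + η := by rw [hε, one_mul, mul_div_cancel₀]; norm_num

theorem lower_eq (ha : 0 < a) (hF : ∀ ε : ℝ, 0 < ε → ∀ᶠ r : ℝ in 𝓝[>] 0, GoodAt F (a + ε) (2 * ε) r)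
    (E : Set X) : lowerBoxDim (F '' E) = a * lowerBoxDim E := by
  refine dimOf_mul ha (fun s hs η hη => ?_) (fun s hs η hη => ?_)
  · set ε : ℝ≥0 := η / (s + 1) with hε
    have hε0 : 0 < ε := by positivity
    have hb : (0:ℝ) < a + ε := by positivity
    refine ⟨(a + ε) * s, ?_, ?_⟩
    · refine ((fr_pow hb hs).and_eventually ((hF ε hε0).and self_mem_nhdsWithin)).mono
        fun r hr => ?_
      obtain ⟨h2, h1, h3⟩ := hr
      have h3 : (0:ℝ) < r := h3
      rw [← Real.rpow_mul h3.le] at h2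
      refine (CovBy.image h1.1 h2).mono le_rfl (le_of_eq ?_)
      congr 1
      push_cast
      ring
    · rw [add_mul]
      gcongr
      rw [hε, div_mul_eq_mul_div]
      refine div_le_of_le_mul₀ (by positivity) (by positivity) ?_
      gcongr
      exact le_add_of_nonneg_right zero_le_one
  · set ε : ℝ≥0 := η / 2 with hε
    have hε0 : 0 < ε := by positivity
    have hb : (0:ℝ) < a + ε := by positivity
    refine ⟨(s + 2 * ε) / (a + ε), ?_, ?_⟩
    · have h0 := hs.and_eventually ((hF ε hε0).and self_mem_nhdsWithin)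
      refine ((fr_pow (b := 1 / (a + ε)) (by positivity) h0).and_eventually
        self_mem_nhdsWithin).mono fun ρ hρ => ?_
      obtain ⟨h1, h2⟩ := hρ
      have h2 : (0:ℝ) < ρ := h2
      obtain ⟨h4, h3, h5⟩ := h1
      have h5 : (0:ℝ) < ρ ^ (1 / ((a:ℝ) + ε)) := h5
      have h6 := h3.back h5 (E := E) (subset_preimage_image F E) h4
      rw [← Real.rpow_mul h2.le, one_div_mul_cancel hb.ne', Real.rpow_one,
        ← Real.rpow_add h5, ← Real.rpow_mul h2.le] at h6
      refine h6.mono le_rfl (le_of_eq ?_)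
      congr 1
      push_cast
      field_simp
      ring
    · have h1 : a / (a + ε) ≤ 1 := div_le_one_of_le₀ (le_add_of_nonneg_right (by positivity)) (by positivity)
      calc a * ((s + 2 * ε) / (a + ε)) = (a / (a + ε)) * (s + 2 * ε) := by ring
        _ ≤ 1 * (s + 2 * ε) := by gcongr
        _ = s + η := by rw [hε, one_mul, mul_div_cancel₀]; norm_num

theorem upperBoxDim_mono {E E' : Set X} (h : E ⊆ E') : upperBoxDim E ≤ upperBoxDim E' := by
  refine le_iInf₂ fun s hs => iInf₂_le s ?_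
  filter_upwards [hs] with r hr
  exact hr.mono h le_rfl

theorem pack_eq (ha : 0 < a) (hF : ∀ ε : ℝ, 0 < ε → ∀ᶠ r : ℝ in 𝓝[>] 0, GoodAt F (a + ε) (2 * ε) r)
    (E : Set X) : packDim (F '' E) = a * packDim E := by
  have ha' : (a : ℝ≥0∞) ≠ 0 := by exact_mod_cast ha.ne'
  refine le_antisymm ?_ ?_
  · unfold packDim
    rw [ENNReal.mul_iInf_of_ne ha' (by simp)]
    refine le_iInf fun U => ?_
    rw [ENNReal.mul_iInf_of_ne ha' (by simp)]
    refine le_iInf fun hU => ?_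
    refine (iInf₂_le (fun n => F '' (U n)) ?_).trans ?_
    · rw [← image_iUnion]
      exact image_mono hU
    · rw [ENNReal.mul_iSup]
      exact iSup_mono fun n => (upper_eq ha hF _).le
  · refine le_iInf₂ fun V hV => ?_
    have h1 : packDim E ≤ ⨆ n, upperBoxDim (F ⁻¹' (V n)) := by
      refine iInf₂_le (fun n => F ⁻¹' (V n)) ?_
      rw [← preimage_iUnion]
      exact image_subset_iff.1 hV
    calc (a : ℝ≥0∞) * packDim E ≤ a * ⨆ n, upperBoxDim (F ⁻¹' (V n)) := by gcongr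
      _ = ⨆ n, a * upperBoxDim (F ⁻¹' (V n)) := ENNReal.mul_iSup _ _
      _ = ⨆ n, upperBoxDim (F '' (F ⁻¹' (V n))) := by simp_rw [upper_eq ha hF]
      _ ≤ ⨆ n, upperBoxDim (V n) := iSup_mono fun n => upperBoxDim_mono (image_preimage_subset _ _)

end

end Pool.Agent.N892.UP
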