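import Pool.Agent.N892.UP.Box

set_option autoImplicit false

namespace Pool.Agent.N892.UP

open MeasureTheory Metric Set Filter Topology ENNReal NNReal

/-- `C h ^ (4/7) (log (1/h)) ^ (3/7)` -/
noncomputable def om (C h : ℝ) : ℝ := C * (h ^ (4/7 : ℝ) * Real.log (1 / h) ^ (3/7 : ℝ))

/-- `κ r ^ (7/4) (log (1/r)) ^ (-3/4)` -/
noncomputable def lam (κ r : ℝ) : ℝ := κ * (r ^ (7/4 : ℝ) * Real.log (1 / r) ^ (-(3/4) : ℝ))

/-- `K (log (1/r)) ^ (7/8)` -/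
noncomputable def mult (K r : ℝ) : ℝ := K * Real.log (1 / r) ^ (7/8 : ℝ)

theorem tendsto_rpow_log {s : ℝ} (hs : 0 < s) (p : ℝ) :
    Tendsto (fun r : ℝ => r ^ s * Real.log (1 / r) ^ p) (𝓝[>] 0) (𝓝 0) := by
  have h := (isLittleO_log_rpow_rpow_atTop p hs).tendsto_div_nhds_zero
  have h2 := h.comp (tendsto_inv_nhdsGT_zero (𝕜 := ℝ))
  refine h2.congr' ?_
  filter_upwards [self_mem_nhdsWithin] with r hr
  have hr : (0:ℝ) < r := hr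
  simp only [Function.comp]
  rw [Real.inv_rpow hr.le, one_div, div_inv_eq_mul, mul_comm]

theorem ev_lt {f : ℝ → ℝ} (hf : Tendsto f (𝓝[>] 0) (𝓝 0)) {c : ℝ} (hc : 0 < c) :
    ∀ᶠ r in 𝓝[>] (0:ℝ), f r < c := hf.eventually (gt_mem_nhds hc)

theorem tendsto_logInv : Tendsto (fun r : ℝ => Real.log (1 / r)) (𝓝[>] 0) atTop := by
  have := Real.tendsto_log_atTop.comp (tendsto_inv_nhdsGT_zero (𝕜 := ℝ))
  simpa [Function.comp_def, one_div] using this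

theorem ev_log (M : ℝ) : ∀ᶠ r in 𝓝[>] (0:ℝ), M ≤ Real.log (1 / r) :=
  tendsto_logInv.eventually_ge_atTop M

theorem tendsto_om (C : ℝ) : Tendsto (om C) (𝓝[>] 0) (𝓝 0) := by
  have := (tendsto_rpow_log (s := 4/7) (by norm_num) (3/7)).const_mul C
  rw [mul_zero] at this
  exact this

theorem tendsto_lam (κ : ℝ) : Tendsto (lam κ) (𝓝[>] 0) (𝓝 0) := by
  have := (tendsto_rpow_log (s := 7/4) (by norm_num) (-(3/4))).const_mul κ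
  rw [mul_zero] at this
  exact this

theorem lam_pos {κ : ℝ} (hκ : 0 < κ) : ∀ᶠ r in 𝓝[>] (0:ℝ), 0 < lam κ r := by
  filter_upwards [ev_log 1, self_mem_nhdsWithin] with r h1 h2
  have h2 : (0:ℝ) < r := h2
  have h3 : 0 < Real.log (1 / r) := by linarith
  unfold lam
  positivity

theorem tendsto_lam' {κ : ℝ} (hκ : 0 < κ) : Tendsto (lam κ) (𝓝[>] 0) (𝓝[>] 0) :=
  tendsto_nhdsWithin_iff.2 ⟨tendsto_lam κ, lam_pos hκ⟩

theorem om_lam {C κ : ℝ} (hC : 0 < C) (hκ : 0 < κ)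
    (h : C * (κ ^ (4/7 : ℝ) * (3:ℝ) ^ (3/7 : ℝ)) ≤ 1) : ∀ᶠ r in 𝓝[>] (0:ℝ), om C (lam κ r) ≤ r := by
  filter_upwards [ev_log 1, ev_log (-2 * Real.log κ), ev_log (Real.log κ), self_mem_nhdsWithin]
    with r h1 h2 h2' h3
  have h3 : (0:ℝ) < r := h3
  set L := Real.log (1 / r) with hL
  have hL0 : 0 < L := by linarith
  have hlr : Real.log r = -L := by rw [hL, one_div, Real.log_inv]; ring
  have e0 : 0 < lam κ r := by unfold lam; positivity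
  have e1 : Real.log (1 / lam κ r) = -Real.log κ + 7/4 * L + 3/4 * Real.log L := by
    unfold lam
    rw [← hL, one_div, Real.log_inv, Real.log_mul hκ.ne' (by positivity),
      Real.log_mul (by positivity) (by positivity), Real.log_rpow h3, Real.log_rpow hL0, hlr]
    ring
  have e2 : Real.log (1 / lam κ r) ≤ 3 * L := by
    rw [e1]
    have := Real.log_le_sub_one_of_pos hL0
    linarith
  have e3 : 0 ≤ Real.log (1 / lam κ r) := by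
    rw [e1]
    have := Real.log_nonneg h1
    linarith
  have e4 : lam κ r ^ (4/7 : ℝ) = κ ^ (4/7 : ℝ) * (r * L ^ (-(3/7) : ℝ)) := by
    unfold lam
    rw [← hL, Real.mul_rpow hκ.le (by positivity), Real.mul_rpow (by positivity) (by positivity),
      ← Real.rpow_mul h3.le, ← Real.rpow_mul hL0.le]
    norm_num
  have e5 : Real.log (1 / lam κ r) ^ (3/7 : ℝ) ≤ (3:ℝ) ^ (3/7 : ℝ) * L ^ (3/7 : ℝ) := by
    rw [← Real.mul_rpow (by norm_num) hL0.le]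
    exact Real.rpow_le_rpow e3 e2 (by norm_num)
  have e6 : L ^ (-(3/7) : ℝ) * L ^ (3/7 : ℝ) = 1 := by
    rw [← Real.rpow_add hL0]; norm_num
  unfold om
  calc C * (lam κ r ^ (4/7 : ℝ) * Real.log (1 / lam κ r) ^ (3/7 : ℝ))
      ≤ C * (κ ^ (4/7 : ℝ) * (r * L ^ (-(3/7) : ℝ)) * ((3:ℝ) ^ (3/7 : ℝ) * L ^ (3/7 : ℝ))) := by
        rw [e4]
        gcongr
    _ = (C * (κ ^ (4/7 : ℝ) * (3:ℝ) ^ (3/7 : ℝ))) * r * (L ^ (-(3/7) : ℝ) * L ^ (3/7 : ℝ)) := by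
        ring
    _ ≤ 1 * r * 1 := by
        rw [e6]
        gcongr
    _ = r := by ring

/-- small constants exist -/
theorem exists_kappa {C : ℝ} (hC : 0 < C) :
    ∃ κ : ℝ, 0 < κ ∧ C * (κ ^ (4/7 : ℝ) * (3:ℝ) ^ (3/7 : ℝ)) ≤ 1 := by
  refine ⟨(C * (3:ℝ) ^ (3/7 : ℝ)) ^ (-(7/4) : ℝ), by positivity, ?_⟩
  have h : 0 < C * (3:ℝ) ^ (3/7 : ℝ) := by positivity
  rw [← Real.rpow_mul h.le]
  have : (-(7/4) * (4/7) : ℝ) = -1 := by norm_num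
  rw [this, Real.rpow_neg_one]
  have e : C * ((C * (3:ℝ) ^ (3/7 : ℝ))⁻¹ * (3:ℝ) ^ (3/7 : ℝ)) =
    (C * (3:ℝ) ^ (3/7 : ℝ)) * (C * (3:ℝ) ^ (3/7 : ℝ))⁻¹ := by ring
  rw [e, mul_inv_cancel₀ h.ne']

/-- powers are smaller -/
theorem pow_le_lam {κ ε T : ℝ} (hκ : 0 < κ) (hε : 0 < ε) (hT : 0 < T) :
    ∀ᶠ r in 𝓝[>] (0:ℝ), r ^ (7/4 + ε) * T ≤ lam κ r := by
  filter_upwards [ev_log 1, ev_lt (tendsto_rpow_log hε (3/4)) (c := κ / T) (by positivity),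
    self_mem_nhdsWithin] with r h1 h2 h3
  have h3 : (0:ℝ) < r := h3
  unfold lam
  set L := Real.log (1 / r) with hL
  have hL0 : 0 < L := by linarith
  have e6 : L ^ (3/4 : ℝ) * L ^ (-(3/4) : ℝ) = 1 := by
    rw [← Real.rpow_add hL0]; norm_num
  rw [Real.rpow_add h3]
  calc r ^ (7/4 : ℝ) * r ^ ε * T = r ^ (7/4 : ℝ) * ((r ^ ε * L ^ (3/4 : ℝ)) * T) * L ^ (-(3/4) : ℝ) := by
        rw [show r ^ (7/4 : ℝ) * ((r ^ ε * L ^ (3/4 : ℝ)) * T) * L ^ (-(3/4) : ℝ) =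
          r ^ (7/4 : ℝ) * r ^ ε * T * (L ^ (3/4 : ℝ) * L ^ (-(3/4) : ℝ)) by ring, e6, mul_one]
    _ ≤ r ^ (7/4 : ℝ) * (κ / T * T) * L ^ (-(3/4) : ℝ) := by gcongr
    _ = κ * (r ^ (7/4 : ℝ) * L ^ (-(3/4) : ℝ)) := by
        rw [div_mul_cancel₀ _ hT.ne']; ring

/-- the occupation bound -/
noncomputable def occ (C r : ℝ) : ℝ := C * (r ^ (7/4 : ℝ) * Real.log (1 / r) ^ (1/8 : ℝ))

theorem occ_two {C : ℝ} (hC : 0 < C) : ∀ᶠ r in 𝓝[>] (0:ℝ), 0 ≤ occ C (2 * r) ∧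
    occ C (2 * r) ≤ 4 * C * (r ^ (7/4 : ℝ) * Real.log (1 / r) ^ (1/8 : ℝ)) := by
  filter_upwards [ev_log 1, self_mem_nhdsWithin] with r h1 h3
  have h3 : (0:ℝ) < r := h3
  unfold occ
  set L := Real.log (1 / r) with hL
  have e1 : Real.log (1 / (2 * r)) = L - Real.log 2 := by
    rw [hL, one_div, one_div, Real.log_inv, Real.log_inv, Real.log_mul (by norm_num) h3.ne']
    ring
  have e2 : 0 ≤ Real.log (1 / (2 * r)) := by
    rw [e1]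
    have := Real.log_le_sub_one_of_pos (show (0:ℝ) < 2 by norm_num)
    linarith
  have e3 : Real.log (1 / (2 * r)) ≤ L := by
    rw [e1]
    have := Real.log_nonneg (show (1:ℝ) ≤ 2 by norm_num)
    linarith
  have e4 : (2:ℝ) ^ (7/4 : ℝ) ≤ 4 := by
    calc (2:ℝ) ^ (7/4 : ℝ) ≤ (2:ℝ) ^ (2 : ℝ) :=
          Real.rpow_le_rpow_of_exponent_le (by norm_num) (by norm_num)
      _ = 4 := by norm_num
  refine ⟨by positivity, ?_⟩
  rw [Real.mul_rpow (by norm_num) h3.le]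
  calc C * ((2:ℝ) ^ (7/4 : ℝ) * r ^ (7/4 : ℝ) * Real.log (1 / (2 * r)) ^ (1/8 : ℝ))
      ≤ C * (4 * r ^ (7/4 : ℝ) * L ^ (1/8 : ℝ)) := by gcongr
    _ = 4 * C * (r ^ (7/4 : ℝ) * L ^ (1/8 : ℝ)) := by ring

theorem count_log {C κ : ℝ} (hC : 0 < C) (hκ : 0 < κ) : ∀ᶠ r in 𝓝[>] (0:ℝ),
    1 + occ C (2 * r) / lam κ r ≤ mult (1 + 4 * C / κ) r := by
  filter_upwards [ev_log 1, self_mem_nhdsWithin, occ_two hC] with r h1 h3 h4
  have h3 : (0:ℝ) < r := h3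
  unfold mult
  have h5 := h4.2
  unfold lam
  set L := Real.log (1 / r) with hL
  have hL0 : 0 < L := by linarith
  have e1 : L ^ (1/8 : ℝ) = L ^ (7/8 : ℝ) * L ^ (-(3/4) : ℝ) := by
    rw [← Real.rpow_add hL0]; norm_num
  have e2 : 0 < κ * (r ^ (7/4 : ℝ) * L ^ (-(3/4) : ℝ)) := by positivity
  have e3 : occ C (2 * r) / (κ * (r ^ (7/4 : ℝ) * L ^ (-(3/4) : ℝ))) ≤ 4 * C / κ * L ^ (7/8 : ℝ) := by
    rw [div_le_iff₀ e2]
    refine h5.trans (le_of_eq ?_)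
    rw [e1]
    field_simp
  have e4 : 1 ≤ L ^ (7/8 : ℝ) := Real.one_le_rpow h1 (by norm_num)
  calc 1 + occ C (2 * r) / (κ * (r ^ (7/4 : ℝ) * L ^ (-(3/4) : ℝ)))
      ≤ L ^ (7/8 : ℝ) + 4 * C / κ * L ^ (7/8 : ℝ) := add_le_add e4 e3
    _ = (1 + 4 * C / κ) * L ^ (7/8 : ℝ) := by ring

theorem count_pow {C ε T : ℝ} (hC : 0 < C) (hε : 0 < ε) (hT : 0 < T) : ∀ᶠ r in 𝓝[>] (0:ℝ),
    1 + occ C (2 * r) / (r ^ (7/4 + ε) * T) ≤ r ^ (-(2 * ε)) := by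
  have h0 : ∀ᶠ r in 𝓝[>] (0:ℝ), r ^ (2 * ε) * Real.log (1 / r) ^ (0:ℝ) < 1 / 2 :=
    ev_lt (tendsto_rpow_log (s := 2 * ε) (by positivity) 0) (by norm_num)
  filter_upwards [ev_log 1, self_mem_nhdsWithin, occ_two hC, h0,
    ev_lt (tendsto_rpow_log hε (1/8)) (c := T / (8 * C)) (by positivity)] with r h1 h3 h4 h5 h6
  have h3 : (0:ℝ) < r := h3
  have h7 := h4.2
  rw [Real.rpow_zero, mul_one] at h5
  set L := Real.log (1 / r) with hL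
  have hL0 : 0 < L := by linarith
  have e2 : 0 < r ^ (7/4 + ε) * T := by positivity
  have e0 : r ^ (2 * ε) = r ^ ε * r ^ ε := by rw [← Real.rpow_add h3]; congr 1; ring
  have e1 : r ^ (-(2 * ε)) * r ^ (2 * ε) = 1 := by rw [← Real.rpow_add h3]; simp
  have e3 : occ C (2 * r) / (r ^ (7/4 + ε) * T) ≤ 1 / 2 * r ^ (-(2 * ε)) := by
    rw [div_le_iff₀ e2]
    refine h7.trans ?_
    rw [Real.rpow_add h3]
    have e5 : r ^ (-(2 * ε)) * r ^ ε * r ^ ε = 1 := by rw [mul_assoc, ← e0, e1]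
    calc 4 * C * (r ^ (7/4 : ℝ) * L ^ (1/8 : ℝ))
        = 4 * C * (r ^ (7/4 : ℝ) * (r ^ ε * L ^ (1/8 : ℝ))) * (r ^ (-(2 * ε)) * r ^ ε) := by
          rw [show 4 * C * (r ^ (7/4 : ℝ) * (r ^ ε * L ^ (1/8 : ℝ))) * (r ^ (-(2 * ε)) * r ^ ε) =
            4 * C * (r ^ (7/4 : ℝ) * L ^ (1/8 : ℝ)) * (r ^ (-(2 * ε)) * r ^ ε * r ^ ε) by ring,
            e5, mul_one]
      _ ≤ 4 * C * (r ^ (7/4 : ℝ) * (T / (8 * C))) * (r ^ (-(2 * ε)) * r ^ ε) := by gcongr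
      _ = 1 / 2 * r ^ (-(2 * ε)) * (r ^ (7/4 : ℝ) * r ^ ε * T) := by field_simp; ring
  have e4 : 1 ≤ 1 / 2 * r ^ (-(2 * ε)) := by
    have h8 : 0 < r ^ (-(2 * ε)) := by positivity
    nlinarith
  linarith

theorem graph_calc {C T : ℝ} (hC : 0 < C) (hT : 0 < T) : ∀ᶠ h in 𝓝[>] (0:ℝ),
    h / T ≤ om C h := by
  have h0 : ∀ᶠ r in 𝓝[>] (0:ℝ), r ^ (3/7 : ℝ) * Real.log (1 / r) ^ (0:ℝ) < C * T :=
    ev_lt (tendsto_rpow_log (s := 3/7) (by positivity) 0) (by positivity)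
  filter_upwards [ev_log 1, self_mem_nhdsWithin, h0] with h h1 h3 h4
  have h3 : (0:ℝ) < h := h3
  rw [Real.rpow_zero, mul_one] at h4
  unfold om
  have e4 : 1 ≤ Real.log (1 / h) ^ (3/7 : ℝ) := Real.one_le_rpow h1 (by norm_num)
  have e5 : h = h ^ (4/7 : ℝ) * h ^ (3/7 : ℝ) := by
    rw [← Real.rpow_add h3]; norm_num
  rw [div_le_iff₀ hT]
  calc h = h ^ (4/7 : ℝ) * h ^ (3/7 : ℝ) := e5
    _ ≤ h ^ (4/7 : ℝ) * (C * T) := by gcongr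
    _ = C * (h ^ (4/7 : ℝ) * 1) * T := by ring
    _ ≤ C * (h ^ (4/7 : ℝ) * Real.log (1 / h) ^ (3/7 : ℝ)) * T := by gcongr

end Pool.Agent.N892.UP
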