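import Pool.Agent.N892.UP.Defs

set_option autoImplicit false

namespace Pool.Agent.N892.UP

open MeasureTheory Metric Set Filter Topology ENNReal NNReal

variable {X Y : Type*} [PseudoMetricSpace X] [PseudoMetricSpace Y]

theorem CovBy.mono {E E' : Set X} {r x x' : ℝ} (h : CovBy E r x) (hE : E' ⊆ E) (hx : x ≤ x') :
    CovBy E' r x' := by
  obtain ⟨C, h1, h2⟩ := h
  exact ⟨C, hE.trans h1, h2.trans hx⟩

theorem CovBy.mono_r {E : Set X} {r r' x : ℝ} (h : CovBy E r x) (hr : r ≤ r') :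
    CovBy E r' x := by
  obtain ⟨C, h1, h2⟩ := h
  exact ⟨C, h1.trans (iUnion₂_mono fun c _ => closedBall_subset_closedBall hr), h2⟩

/-- image of a cover -/
theorem CovBy.image {F : X → Y} {E : Set X} {ℓ r x : ℝ}
    (hF : ∀ s t, dist s t ≤ ℓ → dist (F s) (F t) ≤ r) (h : CovBy E ℓ x) : CovBy (F '' E) r x := by
  classical
  obtain ⟨C, h1, h2⟩ := h
  refine ⟨C.image F, ?_, le_trans (by exact_mod_cast Finset.card_image_le) h2⟩
  rintro _ ⟨s, hs, rfl⟩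
  obtain ⟨c, hc, hsc⟩ := mem_iUnion₂.1 (h1 hs)
  exact mem_iUnion₂.2 ⟨F c, Finset.mem_image_of_mem F hc, hF _ _ hsc⟩

/-- union of covers -/
theorem CovBy.biUnion {ι : Type*} (S : Finset ι) {E : Set X} {V : ι → Set X} {r x n : ℝ}
    (hE : E ⊆ ⋃ i ∈ S, V i) (hV : ∀ i ∈ S, CovBy (V i) r x) (hS : (S.card : ℝ) ≤ n) (hx : 0 ≤ x) :
    CovBy E r (n * x) := by
  classical
  choose! C h1 h2 using hV
  refine ⟨S.biUnion C, ?_, ?_⟩
  · intro s hs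
    obtain ⟨i, hi, hsi⟩ := mem_iUnion₂.1 (hE hs)
    obtain ⟨c, hc, hsc⟩ := mem_iUnion₂.1 (h1 i hi hsi)
    exact mem_iUnion₂.2 ⟨c, Finset.mem_biUnion.2 ⟨i, hi, hc⟩, hsc⟩
  · have h3 : ((S.biUnion C).card : ℝ) ≤ ∑ i ∈ S, ((C i).card : ℝ) := by
      exact_mod_cast Finset.card_biUnion_le
    have h4 : ∑ i ∈ S, ((C i).card : ℝ) ≤ ∑ i ∈ S, x := Finset.sum_le_sum fun i hi => h2 i hi
    rw [Finset.sum_const, nsmul_eq_mul] at h4
    exact h3.trans (h4.trans (mul_le_mul_of_nonneg_right hS hx))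

/-- the infimum of a property of non-negative numbers -/
noncomputable def dimOf (P : ℝ≥0 → Prop) : ℝ≥0∞ := ⨅ (s : ℝ≥0) (_ : P s), (s : ℝ≥0∞)

theorem dimOf_le {P Q : ℝ≥0 → Prop} {a : ℝ≥0} (ha : 0 < a)
    (h : ∀ s, P s → ∀ η : ℝ≥0, 0 < η → ∃ s', Q s' ∧ s' ≤ a * s + η) :
    dimOf Q ≤ a * dimOf P := by
  unfold dimOf
  rw [ENNReal.mul_iInf_of_ne (by exact_mod_cast ha.ne') (by simp)]
  refine le_iInf fun s => ?_
  rw [ENNReal.mul_iInf_of_ne (by exact_mod_cast ha.ne') (by simp)]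
  refine le_iInf fun hs => ?_
  refine ENNReal.le_of_forall_pos_le_add fun η hη _ => ?_
  obtain ⟨s', h1, h2⟩ := h s hs η hη
  refine (iInf₂_le s' h1).trans ?_
  exact_mod_cast h2

theorem dimOf_mul {P Q : ℝ≥0 → Prop} {a : ℝ≥0} (ha : 0 < a)
    (h : ∀ s, P s → ∀ η : ℝ≥0, 0 < η → ∃ s', Q s' ∧ s' ≤ a * s + η)
    (h' : ∀ s, Q s → ∀ η : ℝ≥0, 0 < η → ∃ s', P s' ∧ a * s' ≤ s + η) :
    dimOf Q = a * dimOf P := by
  refine le_antisymm (dimOf_le ha h) ?_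
  have h2 : dimOf P ≤ (a⁻¹ : ℝ≥0) * dimOf Q := by
    refine dimOf_le (by positivity) fun s hs η hη => ?_
    obtain ⟨s', h3, h4⟩ := h' s hs (a * η) (by positivity)
    refine ⟨s', h3, ?_⟩
    have h5 : a⁻¹ * (a * s') ≤ a⁻¹ * (s + a * η) := mul_le_mul_of_nonneg_left h4 (by positivity)
    have h6 : a⁻¹ * (a * s') = s' := by field_simp
    have h7 : a⁻¹ * (s + a * η) = a⁻¹ * s + η := by field_simp
    rw [h6, h7] at h5
    exact h5
  calc (a : ℝ≥0∞) * dimOf P ≤ a * ((a⁻¹ : ℝ≥0) * dimOf Q) := by gcongr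
    _ = dimOf Q := by
        rw [← mul_assoc, ← ENNReal.coe_mul, mul_inv_cancel₀ ha.ne', ENNReal.coe_one, one_mul]

end Pool.Agent.N892.UP
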