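import Mathlib

set_option autoImplicit false

namespace Pool.Agent.N892.UP

open MeasureTheory Metric Set Filter Topology ENNReal NNReal

section
variable {X Y : Type*} [EMetricSpace X] [EMetricSpace Y]
  [MeasurableSpace X] [BorelSpace X] [MeasurableSpace Y] [BorelSpace Y]

/-- Hausdorff measures of images, from above. -/
theorem gauge_up {F : X → Y} {g w : ℝ≥0∞ → ℝ≥0∞} (hg : Monotone g)
    (h0 : ∀ r : ℝ≥0∞, 0 < r → ∃ d : ℝ≥0∞, 0 < d ∧ ∀ A : Set X, ediam A ≤ d →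
      ediam (F '' A) ≤ r ∧ ediam (F '' A) ≤ w (ediam A)) (E : Set X) :
    Measure.mkMetric g (F '' E) ≤ Measure.mkMetric (fun h => g (w h)) E := by
  rw [← OuterMeasure.coe_mkMetric, ← OuterMeasure.coe_mkMetric]
  have h1 : OuterMeasure.mkMetric g (F '' E) =
      ⨆ (r : ℝ≥0∞) (_ : 0 < r), OuterMeasure.mkMetric'.pre (fun s => g (ediam s)) r (F '' E) := by
    simp only [OuterMeasure.mkMetric, OuterMeasure.mkMetric', OuterMeasure.iSup_apply, gt_iff_lt]
  rw [h1]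
  refine iSup₂_le fun r hr => ?_
  obtain ⟨d, hd, hA⟩ := h0 r hr
  have h2 : OuterMeasure.comap F (OuterMeasure.mkMetric'.pre (fun s => g (ediam s)) r) ≤
      OuterMeasure.mkMetric (fun h => g (w h)) := by
    refine OuterMeasure.le_mkMetric _ _ d hd fun s hs => ?_
    rw [OuterMeasure.comap_apply]
    obtain ⟨k1, k2⟩ := hA s hs
    exact (OuterMeasure.mkMetric'.pre_le k1).trans (hg k2)
  exact h2 E

/-- Hausdorff measures of images, from below. -/
theorem gauge_down {F : X → Y} {g G : ℝ≥0∞ → ℝ≥0∞}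
    (h0 : ∀ r : ℝ≥0∞, 0 < r → ∃ d : ℝ≥0∞, 0 < d ∧ ∀ A : Set Y, ediam A ≤ d →
      OuterMeasure.mkMetric'.pre (fun s => g (ediam s)) r (F ⁻¹' A) ≤ G (ediam A)) (E : Set X) :
    Measure.mkMetric g E ≤ Measure.mkMetric G (F '' E) := by
  rw [← OuterMeasure.coe_mkMetric, ← OuterMeasure.coe_mkMetric]
  have h1 : OuterMeasure.mkMetric g E =
      ⨆ (r : ℝ≥0∞) (_ : 0 < r), OuterMeasure.mkMetric'.pre (fun s => g (ediam s)) r E := by
    simp only [OuterMeasure.mkMetric, OuterMeasure.mkMetric', OuterMeasure.iSup_apply, gt_iff_lt]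
  rw [h1]
  refine iSup₂_le fun r hr => ?_
  obtain ⟨d, hd, hA⟩ := h0 r hr
  have h2 : OuterMeasure.map F (OuterMeasure.mkMetric'.pre (fun s => g (ediam s)) r) ≤
      OuterMeasure.mkMetric G := by
    refine OuterMeasure.le_mkMetric _ _ d hd fun s hs => ?_
    rw [OuterMeasure.map_apply]
    exact hA s hs
  refine le_trans ?_ (h2 (F '' E))
  rw [OuterMeasure.map_apply]
  exact (OuterMeasure.mkMetric'.pre (fun s => g (ediam s)) r).mono (subset_preimage_image F E)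

end

section
variable {X Y : Type*} [MetricSpace X] [MetricSpace Y]

theorem pre_cover {g : ℝ≥0∞ → ℝ≥0∞} (hg : Monotone g) {ι : Type*} (S : Finset ι) (U : ι → Set X)
    {A : Set X} {ρ : ℝ≥0∞} {n ℓ : ℝ≥0∞} (hA : A ⊆ ⋃ i ∈ S, U i) (hU : ∀ i ∈ S, ediam (U i) ≤ ℓ)
    (hℓ : ℓ ≤ ρ) (hS : (S.card : ℝ≥0∞) ≤ n) :
    OuterMeasure.mkMetric'.pre (fun s => g (ediam s)) ρ A ≤ n * g ℓ := by
  calc OuterMeasure.mkMetric'.pre (fun s => g (ediam s)) ρ A
      ≤ OuterMeasure.mkMetric'.pre (fun s => g (ediam s)) ρ (⋃ i ∈ S, U i) :=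
        (OuterMeasure.mkMetric'.pre (fun s => g (ediam s)) ρ).mono hA
    _ ≤ ∑ i ∈ S, OuterMeasure.mkMetric'.pre (fun s => g (ediam s)) ρ (U i) :=
        measure_biUnion_finset_le S U
    _ ≤ ∑ i ∈ S, g ℓ := Finset.sum_le_sum fun i hi =>
        (OuterMeasure.mkMetric'.pre_le ((hU i hi).trans hℓ)).trans (hg (hU i hi))
    _ = S.card * g ℓ := by rw [Finset.sum_const, nsmul_eq_mul]
    _ ≤ n * g ℓ := by gcongr

end

end Pool.Agent.N892.UP
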