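import Pool.Agent.N892.UP.Cells
import Pool.Agent.N892.UP.Gauge

set_option autoImplicit false

namespace Pool.Agent.N892.UP

open MeasureTheory Metric Set Filter Topology ENNReal NNReal

section gauge
variable {Y : Type*} [MetricSpace Y] [MeasurableSpace Y] [BorelSpace Y]

theorem Ctl.gauge_up {F : unitInterval → Y} {C C2 κ T : ℝ} (hT : 0 < T)
    (h : Ctl F C C2 κ T) {g : ℝ≥0∞ → ℝ≥0∞} (hg : Monotone g) (E : Set unitInterval) :
    Measure.mkMetric g (F '' E) ≤
      Measure.mkMetric (fun d => g (ENNReal.ofReal (om C (T * d.toReal)))) E := by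
  refine UP.gauge_up hg (w := fun d => ENNReal.ofReal (om C (T * d.toReal))) (fun r hr => ?_) E
  -- a real number below `r`
  obtain ⟨r', hr', hr'r⟩ : ∃ r' : ℝ, 0 < r' ∧ ENNReal.ofReal r' ≤ r := by
    rcases eq_or_ne r ⊤ with rfl | hr2
    · exact ⟨1, one_pos, le_top⟩
    · exact ⟨r.toReal, ENNReal.toReal_pos hr.ne' hr2, (ENNReal.ofReal_toReal hr2).le⟩
  obtain ⟨h0, hh0, hh⟩ := mem_nhdsGT_iff_exists_Ioo_subset.1 (h.up.and (ev_lt (tendsto_om C) hr'))
  have hh0 : (0:ℝ) < h0 := hh0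
  refine ⟨ENNReal.ofReal (h0 / (2 * T)), ENNReal.ofReal_pos.2 (by positivity), fun A hA => ?_⟩
  have hfin : ediam A ≠ ⊤ := ne_top_of_le_ne_top ENNReal.ofReal_ne_top hA
  rcases eq_or_ne (ediam A) 0 with hz | hz
  · have h1 : A.Subsingleton := ediam_eq_zero_iff.1 hz
    rw [ediam_subsingleton (h1.image F)]
    exact ⟨bot_le, bot_le⟩
  · have he : 0 < (ediam A).toReal := ENNReal.toReal_pos hz hfin
    have hle : (ediam A).toReal ≤ h0 / (2 * T) := by
      have := ENNReal.toReal_mono ENNReal.ofReal_ne_top hA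
      rwa [ENNReal.toReal_ofReal (by positivity)] at this
    have h2 : T * (ediam A).toReal ∈ Ioo 0 h0 := by
      refine ⟨by positivity, ?_⟩
      calc T * (ediam A).toReal ≤ T * (h0 / (2 * T)) := by gcongr
        _ = h0 / 2 := by field_simp
        _ < h0 := by linarith
    obtain ⟨k1, k2⟩ := hh h2
    have h3 : ediam (F '' A) ≤ ENNReal.ofReal (om C (T * (ediam A).toReal)) := by
      refine ediam_le ?_
      rintro _ ⟨s, hs, rfl⟩ _ ⟨t, ht, rfl⟩
      rw [edist_dist]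
      refine ENNReal.ofReal_le_ofReal (k1 s t ?_)
      have : dist s t ≤ (ediam A).toReal := by
        have := edist_le_ediam_of_mem hs ht
        rw [edist_dist] at this
        exact (ENNReal.ofReal_le_iff_le_toReal hfin).1 this
      rw [mul_comm]
      gcongr
    exact ⟨h3.trans ((ENNReal.ofReal_le_ofReal k2.le).trans hr'r), h3⟩

omit [MeasurableSpace Y] [BorelSpace Y] in
theorem Ctl.ball {F : unitInterval → Y} {C C2 κ T : ℝ} (hC2 : 0 < C2) (hκ : 0 < κ)
    (hT : 0 < T) (h : Ctl F C C2 κ T) {g : ℝ≥0∞ → ℝ≥0∞} (hg : Monotone g) {ρ : ℝ≥0∞}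
    (hρ : 0 < ρ) :
    ∀ᶠ r in 𝓝[>] (0:ℝ), ∀ y : Y,
      OuterMeasure.mkMetric'.pre (fun s => g (ENNReal.ofReal T * ediam s)) ρ
        (F ⁻¹' (closedBall y r)) ≤
      ENNReal.ofReal (mult (1 + 4 * C2 / κ) r) * g (ENNReal.ofReal (lam κ r)) := by
  obtain ⟨r', hr', hr'r⟩ : ∃ r' : ℝ, 0 < r' ∧ ENNReal.ofReal r' ≤ ρ := by
    rcases eq_or_ne ρ ⊤ with rfl | hr2
    · exact ⟨1, one_pos, le_top⟩
    · exact ⟨ρ.toReal, ENNReal.toReal_pos hρ.ne' hr2, (ENNReal.ofReal_toReal hr2).le⟩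
  filter_upwards [h.cells, lam_pos hκ, ev_lt (tendsto_lam κ) (c := T * r') (by positivity),
    count_log hC2 hκ] with r k1 k2 k3 k4 y
  obtain ⟨S, g1, -, g3⟩ := k1 y (lam κ r / T) (by positivity) (by rw [div_mul_cancel₀ _ hT.ne'])
  rw [div_mul_cancel₀ _ hT.ne'] at g3
  have hS : (S.card : ℝ≥0∞) ≤ ENNReal.ofReal (mult (1 + 4 * C2 / κ) r) := by
    rw [← ENNReal.ofReal_natCast]
    exact ENNReal.ofReal_le_ofReal (g3.trans k4)
  have hgT : Monotone (fun d => g (ENNReal.ofReal T * d)) := fun a b hab => hg (by gcongr)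
  have h1 := pre_cover hgT S (fun k => cell (lam κ r / T) k) (A := F ⁻¹' (closedBall y r))
    (ρ := ρ) (ℓ := ENNReal.ofReal (lam κ r / T))
    (fun s hs => mem_iUnion₂.2 ⟨_, g1 s hs, rfl⟩) (fun k _ => by
      refine ediam_le fun s hs t ht => ?_
      rw [edist_dist]
      exact ENNReal.ofReal_le_ofReal (cell_dist (by positivity) hs ht))
    (by
      refine (ENNReal.ofReal_le_ofReal ?_).trans hr'r
      rw [div_le_iff₀ hT, mul_comm]
      exact k3.le) hS
  refine h1.trans (le_of_eq ?_)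
  rw [← ENNReal.ofReal_mul hT.le, mul_div_cancel₀ _ hT.ne']

theorem Ctl.gauge_down {F : unitInterval → Y} {C C2 κ T : ℝ} (hC2 : 0 < C2) (hκ : 0 < κ)
    (hT : 0 < T) (h : Ctl F C C2 κ T) {g : ℝ≥0∞ → ℝ≥0∞} (hg : Monotone g)
    (hg0 : Tendsto (fun r : ℝ => ENNReal.ofReal (mult (1 + 4 * C2 / κ) r) *
      g (ENNReal.ofReal (lam κ r))) (𝓝[>] 0) (𝓝 0)) (E : Set unitInterval) :
    Measure.mkMetric (fun d => g (ENNReal.ofReal T * d)) E ≤
      Measure.mkMetric (fun d => ENNReal.ofReal (mult (1 + 4 * C2 / κ) d.toReal) *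
        g (ENNReal.ofReal (lam κ d.toReal))) (F '' E) := by
  refine UP.gauge_down (g := fun d => g (ENNReal.ofReal T * d))
    (G := fun d => ENNReal.ofReal (mult (1 + 4 * C2 / κ) d.toReal) *
        g (ENNReal.ofReal (lam κ d.toReal))) (fun ρ hρ => ?_) E
  have hb := h.ball hC2 hκ hT hg hρ
  obtain ⟨d0, hd0, hd⟩ := mem_nhdsGT_iff_exists_Ioo_subset.1 hb
  have hd0 : (0:ℝ) < d0 := hd0
  refine ⟨ENNReal.ofReal (d0 / 2), ENNReal.ofReal_pos.2 (by positivity), fun A hA => ?_⟩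
  have hfin : ediam A ≠ ⊤ := ne_top_of_le_ne_top ENNReal.ofReal_ne_top hA
  rcases A.eq_empty_or_nonempty with rfl | ⟨y, hy⟩
  · simp
  rcases eq_or_ne (ediam A) 0 with hz | hz
  · have h1 : A.Subsingleton := ediam_eq_zero_iff.1 hz
    have h2 : OuterMeasure.mkMetric'.pre (fun s => g (ENNReal.ofReal T * ediam s)) ρ (F ⁻¹' A) ≤ 0 := by
      refine ge_of_tendsto hg0 ?_
      filter_upwards [hb, self_mem_nhdsWithin] with r k1 k2
      have k2 : (0:ℝ) < r := k2
      refine le_trans ?_ (k1 y)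
      refine (OuterMeasure.mkMetric'.pre (fun s => g (ENNReal.ofReal T * ediam s)) ρ).mono ?_
      intro s hs
      have : F s = y := h1 hs hy
      simp [this, k2.le]
    exact h2.trans bot_le
  · have he : 0 < (ediam A).toReal := ENNReal.toReal_pos hz hfin
    have hle : (ediam A).toReal ≤ d0 / 2 := by
      have := ENNReal.toReal_mono ENNReal.ofReal_ne_top hA
      rwa [ENNReal.toReal_ofReal (by positivity)] at this
    have h2 : (ediam A).toReal ∈ Ioo 0 d0 := ⟨he, by linarith⟩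
    refine le_trans ?_ (hd h2 y)
    refine (OuterMeasure.mkMetric'.pre (fun s => g (ENNReal.ofReal T * ediam s)) ρ).mono ?_
    intro s hs
    have h3 : edist (F s) y ≤ ediam A := edist_le_ediam_of_mem hs hy
    rw [edist_dist] at h3
    exact (ENNReal.ofReal_le_iff_le_toReal hfin).1 h3

end gauge

end Pool.Agent.N892.UP
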