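import Pool.Agent.N892.UP.Box

set_option autoImplicit false

namespace Pool.Agent.N892.UP

open MeasureTheory Metric Set Filter Topology ENNReal NNReal

variable {X Y : Type*} [PseudoMetricSpace X] [PseudoMetricSpace Y]
variable {F : X → Y} {a : ℝ≥0}

theorem spec_eq (ha : 0 < a) (hF : ∀ ε : ℝ, 0 < ε → ∀ᶠ r : ℝ in 𝓝[>] 0, GoodAt F (a + ε) (2 * ε) r)
    {θ : ℝ} (h0 : 0 < θ) (h1 : θ < 1) (E : Set X) :
    assouadSpec θ (F '' E) = a * assouadSpec θ E := by
  have hθ : 0 < 1 / θ - 1 := by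
    rw [sub_pos, lt_div_iff₀ h0]; linarith
  have hθ' : (0:ℝ) < 1 / θ := by positivity
  refine dimOf_mul ha (fun s hs η hη => ?_) (fun s hs η hη => ?_)
  · set k : ℝ := s + 2 / (1 / θ - 1) with hk
    have hk0 : 0 < k := by positivity
    set ε : ℝ := η / k with hε
    have hε0 : 0 < ε := by positivity
    have hb : (0:ℝ) < a + ε := by positivity
    have hs' : 0 ≤ (a + ε) * s + 2 * ε / (1 / θ - 1) := by positivity
    refine ⟨((a + ε) * s + 2 * ε / (1 / θ - 1)).toNNReal, ?_, ?_⟩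
    · rw [Real.coe_toNNReal _ hs']
      filter_upwards [hF ε hε0, ev_pow hθ' (hF ε hε0), ev_pow hb hs, self_mem_nhdsWithin]
        with r g1 g2 g3 hr y
      have hr : (0:ℝ) < r := hr
      obtain ⟨ι, S, U, k1, k2, k3⟩ := g1.2 y
      have k4 : CovBy (F '' E ∩ closedBall y r) (r ^ (1 / θ)) (r ^ (-(2 * ε)) *
          ((r ^ ((a:ℝ) + ε) / (r ^ ((a:ℝ) + ε)) ^ (1 / θ)) ^ (s : ℝ))) := by
        refine CovBy.biUnion S (V := fun i => F '' (E ∩ U i)) ?_ ?_ k1 (by positivity)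
        · rintro _ ⟨⟨s, hs, rfl⟩, hsy⟩
          obtain ⟨i, hi, hsi⟩ := mem_iUnion₂.1 (k3 hsy)
          exact mem_iUnion₂.2 ⟨i, hi, s, ⟨hs, hsi⟩, rfl⟩
        · intro i hi
          rcases (U i).eq_empty_or_nonempty with h | ⟨x, hx⟩
          · refine ⟨∅, by simp [h], by simpa using (by positivity)⟩
          · have k5 := (g3 x).mono (inter_subset_inter_right E
              (fun t ht => k2 i hi t ht x hx : U i ⊆ closedBall x (r ^ ((a:ℝ) + ε)))) le_rfl
            refine CovBy.image (ℓ := (r ^ (1 / θ)) ^ ((a:ℝ) + ε)) g2.1 ?_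
            rwa [← Real.rpow_mul hr.le, mul_comm (1 / θ), Real.rpow_mul hr.le]
      refine k4.mono le_rfl (le_of_eq ?_)
      have e1 : r ^ ((a:ℝ) + ε) / (r ^ ((a:ℝ) + ε)) ^ (1 / θ) = r ^ (-((a + ε) * (1 / θ - 1))) := by
        rw [← Real.rpow_mul hr.le, ← Real.rpow_sub hr]
        congr 1; ring
      have e2 : r / r ^ (1 / θ) = r ^ (-(1 / θ - 1)) := by
        nth_rewrite 1 [← Real.rpow_one r]
        rw [← Real.rpow_sub hr]
        congr 1; ring
      rw [e1, e2, ← Real.rpow_mul hr.le, ← Real.rpow_mul hr.le, ← Real.rpow_add hr]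
      congr 1
      have : 1 / θ - 1 ≠ 0 := hθ.ne'
      have e3 : -(1 / θ - 1) * (((a:ℝ) + ε) * s + 2 * ε / (1 / θ - 1)) =
        -(1 / θ - 1) * (((a:ℝ) + ε) * s) - 2 * ε * ((1 / θ - 1) / (1 / θ - 1)) := by ring
      rw [e3, div_self this]
      ring
    · rw [← NNReal.coe_le_coe, Real.coe_toNNReal _ hs']
      push_cast
      have : ε * k = η := by rw [hε]; field_simp
      calc ((a:ℝ) + ε) * s + 2 * ε / (1 / θ - 1) = a * s + ε * k := by rw [hk]; ring
        _ = a * s + η := by rw [this]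
        _ ≤ _ := le_rfl
  · set ε : ℝ := η * (1 / θ - 1) * θ / 2 with hε
    have hε0 : 0 < ε := by positivity
    have hb : (0:ℝ) < a + ε := by positivity
    have hs' : 0 ≤ ((s:ℝ) + 2 * ε / θ / (1 / θ - 1)) / (a + ε) := by positivity
    refine ⟨(((s:ℝ) + 2 * ε / θ / (1 / θ - 1)) / (a + ε)).toNNReal, ?_, ?_⟩
    · rw [Real.coe_toNNReal _ hs']
      have g0 := ((hF ε hε0).and (ev_pow hθ' (hF ε hε0))).and (hs.and self_mem_nhdsWithin)
      filter_upwards [ev_pow (b := 1 / (a + ε)) (by positivity) g0, self_mem_nhdsWithin]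
        with ρ g1 hρ x
      have hρ : (0:ℝ) < ρ := hρ
      obtain ⟨⟨g2, g3⟩, g4, g5⟩ := g1
      have e0 : (ρ ^ (1 / ((a:ℝ) + ε))) ^ ((a:ℝ) + ε) = ρ := by
        rw [← Real.rpow_mul hρ.le, one_div_mul_cancel hb.ne', Real.rpow_one]
      set r : ℝ := ρ ^ (1 / ((a:ℝ) + ε)) with hr'
      have hr : 0 < r := g5
      have k1 : CovBy (F '' E ∩ closedBall (F x) r) (r ^ (1 / θ)) _ := g4 (F x)
      have hr2 : 0 < r ^ (1 / θ) := by positivity
      have k2 := g3.back hr2 (E := E ∩ closedBall x ρ) (fun t ht => by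
        refine ⟨mem_image_of_mem F ht.1, ?_⟩
        have := ht.2
        rw [mem_closedBall] at this ⊢
        exact g2.1 _ _ (by rw [e0]; exact this)) k1
      have e3 : (r ^ (1 / θ)) ^ ((a:ℝ) + ε) = ρ ^ (1 / θ) := by
        rw [← Real.rpow_mul hr.le, mul_comm, Real.rpow_mul hr.le, e0]
      rw [e3] at k2
      refine k2.mono le_rfl (le_of_eq ?_)
      have e1 : r / r ^ (1 / θ) = r ^ (-(1 / θ - 1)) := by
        nth_rewrite 1 [← Real.rpow_one r]
        rw [← Real.rpow_sub hr]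
        congr 1; ring
      have e2 : ρ / ρ ^ (1 / θ) = r ^ (-((a + ε) * (1 / θ - 1))) := by
        nth_rewrite 1 2 [← e0]
        rw [← Real.rpow_mul hr.le, ← Real.rpow_sub hr]
        congr 1; ring
      rw [e1, e2, ← Real.rpow_mul hr.le, ← Real.rpow_mul hr.le, ← Real.rpow_mul hr.le,
        ← Real.rpow_add hr]
      congr 1
      have h2 : 1 / θ - 1 ≠ 0 := hθ.ne'
      have e4 : -((a + ε) * (1 / θ - 1)) * (((s:ℝ) + 2 * ε / θ / (1 / θ - 1)) / (a + ε)) =
        - ((1 / θ - 1) * s + (2 * ε / θ) * ((1 / θ - 1) / (1 / θ - 1))) * ((a + ε) / (a + ε)) := by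
        ring
      rw [e4, div_self h2, div_self hb.ne']
      ring
    · rw [← NNReal.coe_le_coe]
      push_cast
      rw [Real.coe_toNNReal _ hs']
      have h2 : 2 * ε / θ / (1 / θ - 1) = η := by
        have : 1 / θ - 1 ≠ 0 := hθ.ne'
        calc 2 * ε / θ / (1 / θ - 1) = η * (θ / θ) * ((1 / θ - 1) / (1 / θ - 1)) := by
              rw [hε]; ring
          _ = η := by rw [div_self this, div_self h0.ne']; ring
      rw [h2]
      have h3 : (a:ℝ) / (a + ε) ≤ 1 := div_le_one_of_le₀ (by linarith) hb.le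
      calc (a:ℝ) * (((s:ℝ) + η) / (a + ε)) = (a / (a + ε)) * (s + η) := by ring
        _ ≤ 1 * (s + η) := by gcongr
        _ = s + η := one_mul _

end Pool.Agent.N892.UP
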