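import Pool.Agent.N892.UP.Cells

set_option autoImplicit false

namespace Pool.Agent.N892.UP

open MeasureTheory Metric Set Filter Topology ENNReal NNReal

/-- mesh square of side `r` in the plane -/
def sq (r : ℝ) (k : ℤ × ℤ) : Set ℂ := {z | ⌊z.re / r⌋ = k.1 ∧ ⌊z.im / r⌋ = k.2}

/-- The sum of the `q`-th powers of the masses of the mesh squares of side `r`. -/
noncomputable def sumSq (μ : Measure ℂ) (r q : ℝ) : ℝ≥0∞ := ∑' k : ℤ × ℤ, μ (sq r k) ^ q

/-- The sum of the `q`-th powers of the masses of the mesh intervals of length `ℓ`. -/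
noncomputable def sumCell (ν : Measure unitInterval) (ℓ q : ℝ) : ℝ≥0∞ :=
  ∑' k : ℤ, ν (cell ℓ k) ^ q

theorem sum_compare {Ω I J : Type*} [MeasurableSpace Ω] (ν : Measure Ω)
    (P : I → Set Ω) (Q : J → Set Ω) (hQ : ∀ x, ∃ j, x ∈ Q j) (n m : ℝ≥0∞)
    (hS : ∀ i, ∃ S : Finset J, (∀ j, (P i ∩ Q j).Nonempty → j ∈ S) ∧ (S.card : ℝ≥0∞) ≤ n)
    (hR : ∀ j, ∃ R : Finset I, (∀ i, (P i ∩ Q j).Nonempty → i ∈ R) ∧ (R.card : ℝ≥0∞) ≤ m)
    {q : ℝ} (hq : 0 < q) :
    ∑' i, ν (P i) ^ q ≤ m * n ^ q * ∑' j, ν (Q j) ^ q := by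
  classical
  choose S0 hS1 hS2 using hS
  choose R hR1 hR2 using hR
  set S : I → Finset J := fun i => (S0 i).filter (fun j => (P i ∩ Q j).Nonempty) with hSd
  have hS3 : ∀ i j, j ∈ S i ↔ (P i ∩ Q j).Nonempty := fun i j =>
    ⟨fun h => (Finset.mem_filter.1 h).2, fun h => Finset.mem_filter.2 ⟨hS1 i j h, h⟩⟩
  have hS4 : ∀ i, ((S i).card : ℝ≥0∞) ≤ n := fun i =>
    le_trans (by exact_mod_cast Finset.card_filter_le _ _) (hS2 i)
  have key : ∀ i, ν (P i) ^ q ≤ n ^ q * ∑' j, (if j ∈ S i then ν (Q j) ^ q else 0) := by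
    intro i
    have e1 : ∑' j, (if j ∈ S i then ν (Q j) ^ q else 0) = ∑ j ∈ S i, ν (Q j) ^ q := by
      rw [tsum_eq_sum (s := S i) (fun j hj => if_neg hj)]
      exact Finset.sum_congr rfl fun j hj => if_pos hj
    rw [e1]
    have e2 : ν (P i) ≤ ∑ j ∈ S i, ν (Q j) := by
      refine (measure_mono ?_).trans (measure_biUnion_finset_le (S i) Q)
      intro x hx
      obtain ⟨j, hj⟩ := hQ x
      exact mem_iUnion₂.2 ⟨j, (hS3 i j).2 ⟨x, hx, hj⟩, hj⟩
    rcases (S i).eq_empty_or_nonempty with h | h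
    · rw [h] at e2 ⊢
      simp only [Finset.sum_empty, nonpos_iff_eq_zero] at e2 ⊢
      rw [e2, ENNReal.zero_rpow_of_pos hq]
      exact bot_le
    · obtain ⟨j0, hj0, hmax⟩ := Finset.exists_max_image (S i) (fun j => ν (Q j)) h
      have e3 : ν (P i) ≤ n * ν (Q j0) := by
        calc ν (P i) ≤ ∑ j ∈ S i, ν (Q j) := e2
          _ ≤ ∑ j ∈ S i, ν (Q j0) := Finset.sum_le_sum hmax
          _ = (S i).card * ν (Q j0) := by rw [Finset.sum_const, nsmul_eq_mul]
          _ ≤ n * ν (Q j0) := by gcongr; exact hS4 i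
      calc ν (P i) ^ q ≤ (n * ν (Q j0)) ^ q := ENNReal.rpow_le_rpow e3 hq.le
        _ = n ^ q * ν (Q j0) ^ q := ENNReal.mul_rpow_of_nonneg _ _ hq.le
        _ ≤ n ^ q * ∑ j ∈ S i, ν (Q j) ^ q := by
            gcongr
            exact Finset.single_le_sum (f := fun j => ν (Q j) ^ q) (fun j _ => bot_le) hj0
  calc ∑' i, ν (P i) ^ q ≤ ∑' i, n ^ q * ∑' j, (if j ∈ S i then ν (Q j) ^ q else 0) :=
        ENNReal.tsum_le_tsum key
    _ = n ^ q * ∑' i, ∑' j, (if j ∈ S i then ν (Q j) ^ q else 0) := ENNReal.tsum_mul_left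
    _ = n ^ q * ∑' j, ∑' i, (if j ∈ S i then ν (Q j) ^ q else 0) := by rw [ENNReal.tsum_comm]
    _ ≤ n ^ q * ∑' j, m * ν (Q j) ^ q := by
        gcongr with j
        calc ∑' i, (if j ∈ S i then ν (Q j) ^ q else 0)
            ≤ ∑' i, (if i ∈ R j then ν (Q j) ^ q else 0) := by
              refine ENNReal.tsum_le_tsum fun i => ?_
              by_cases h : j ∈ S i
              · rw [if_pos h, if_pos (hR1 j i ((hS3 i j).1 h))]
              · rw [if_neg h]; exact bot_le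
          _ = ∑ i ∈ R j, ν (Q j) ^ q := by
              rw [tsum_eq_sum (s := R j) (fun i hi => if_neg hi)]
              exact Finset.sum_congr rfl fun i hi => if_pos hi
          _ = (R j).card * ν (Q j) ^ q := by rw [Finset.sum_const, nsmul_eq_mul]
          _ ≤ m * ν (Q j) ^ q := by gcongr; exact hR2 j
    _ = m * n ^ q * ∑' j, ν (Q j) ^ q := by rw [ENNReal.tsum_mul_left]; ring

theorem measurableSet_sq (r : ℝ) (k : ℤ × ℤ) : MeasurableSet (sq r k) :=
  (measurableSet_eq_fun (f := fun z : ℂ => ⌊z.re / r⌋) (by fun_prop) measurable_const).inter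
    (measurableSet_eq_fun (f := fun z : ℂ => ⌊z.im / r⌋) (by fun_prop) measurable_const)

/-- a square is contained in the ball of radius `r` around its centre -/
theorem sq_subset {r : ℝ} (hr : 0 < r) (k : ℤ × ℤ) :
    sq r k ⊆ closedBall (⟨(k.1 + 1/2) * r, (k.2 + 1/2) * r⟩ : ℂ) r := by
  rintro z ⟨h1, h2⟩
  rw [Int.floor_eq_iff, le_div_iff₀ hr, div_lt_iff₀ hr] at h1 h2
  rw [mem_closedBall, Complex.dist_eq, Complex.norm_def]
  refine Real.sqrt_le_iff.2 ⟨hr.le, ?_⟩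
  rw [Complex.normSq_apply]
  simp only [Complex.sub_re, Complex.sub_im]
  have a1 : |z.re - (k.1 + 1/2) * r| ≤ r / 2 := by
    rw [abs_le]; constructor <;> nlinarith [h1.1, h1.2]
  have a2 : |z.im - (k.2 + 1/2) * r| ≤ r / 2 := by
    rw [abs_le]; constructor <;> nlinarith [h2.1, h2.2]
  have b1 := mul_self_le_mul_self (abs_nonneg _) a1
  have b2 := mul_self_le_mul_self (abs_nonneg _) a2
  rw [abs_mul_abs_self] at b1 b2
  nlinarith [hr]

/-- the squares met by a set of diameter `r` -/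
theorem sq_near {r : ℝ} (hr : 0 < r) (z0 : ℂ) :
    ∃ R : Finset (ℤ × ℤ), (∀ z k, dist z z0 ≤ r → z ∈ sq r k → k ∈ R) ∧ R.card = 9 := by
  refine ⟨Finset.Icc (⌊z0.re / r⌋ - 1) (⌊z0.re / r⌋ + 1) ×ˢ
    Finset.Icc (⌊z0.im / r⌋ - 1) (⌊z0.im / r⌋ + 1), ?_, ?_⟩
  · rintro z k hz ⟨h1, h2⟩
    have hre : |z.re - z0.re| ≤ r := by
      have := Complex.abs_re_le_norm (z - z0)
      rw [Complex.sub_re, ← Complex.dist_eq] at this
      exact this.trans hz
    have him : |z.im - z0.im| ≤ r := by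
      have := Complex.abs_im_le_norm (z - z0)
      rw [Complex.sub_im, ← Complex.dist_eq] at this
      exact this.trans hz
    have gen : ∀ a b : ℝ, |a - b| ≤ r → ⌊b / r⌋ - 1 ≤ ⌊a / r⌋ ∧ ⌊a / r⌋ ≤ ⌊b / r⌋ + 1 := by
      intro a b hab
      rw [abs_le] at hab
      constructor
      · rw [Int.le_floor]
        push_cast
        have h3 := Int.floor_le (b / r)
        have h4 : b / r - 1 ≤ a / r := by
          rw [sub_le_iff_le_add, ← div_self hr.ne', ← add_div]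
          gcongr
          linarith
        linarith
      · rw [← Int.lt_add_one_iff, Int.floor_lt]
        push_cast
        have h3 := Int.lt_floor_add_one (b / r)
        have h4 : a / r ≤ b / r + 1 := by
          rw [← div_self hr.ne', ← add_div]
          gcongr
          linarith
        linarith
    rw [Finset.mem_product, Finset.mem_Icc, Finset.mem_Icc, ← h1, ← h2]
    exact ⟨gen _ _ hre, gen _ _ him⟩
  · rw [Finset.card_product, Int.card_Icc, Int.card_Icc]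
    have : ∀ a : ℤ, (a + 1 + 1 - (a - 1)).toNat = 3 := fun a => by
      rw [show a + 1 + 1 - (a - 1) = 3 by ring]; rfl
    rw [this, this]

theorem Ctl.sums {F : unitInterval → ℂ} (hF : Measurable F) {C C2 κ T : ℝ} (hC : 0 < C)
    (hC2 : 0 < C2) (hκ : 0 < κ) (hT : 0 < T)
    (hCκ : C * (κ ^ (4/7 : ℝ) * (3:ℝ) ^ (3/7 : ℝ)) ≤ 1) (h : Ctl F C C2 κ T) :
    ∀ᶠ r in 𝓝[>] (0:ℝ), ∀ (ν : Measure unitInterval) (q : ℝ), 0 < q →
      sumSq (ν.map F) r q ≤
        9 * ENNReal.ofReal (mult (1 + 4 * C2 / κ) r) ^ q * sumCell ν (lam κ r / T) q ∧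
      sumCell ν (lam κ r / T) q ≤
        ENNReal.ofReal (mult (1 + 4 * C2 / κ) r) * 9 ^ q * sumSq (ν.map F) r q := by
  filter_upwards [h.cells, (tendsto_lam' hκ).eventually h.up, om_lam hC hκ hCκ, lam_pos hκ,
    count_log hC2 hκ, self_mem_nhdsWithin] with r k1 k2 k3 k4 k5 hr ν q hq
  have hr : (0:ℝ) < r := hr
  have hℓ : 0 < lam κ r / T := by positivity
  have hℓT : lam κ r / T * T = lam κ r := div_mul_cancel₀ _ hT.ne'
  set n : ℝ≥0∞ := ENNReal.ofReal (mult (1 + 4 * C2 / κ) r) with hn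
  have hmap : sumSq (ν.map F) r q = ∑' k : ℤ × ℤ, ν (F ⁻¹' (sq r k)) ^ q := by
    unfold sumSq
    congr 1
    funext k
    rw [Measure.map_apply hF (measurableSet_sq r k)]
  -- squares to intervals
  have A : ∀ k : ℤ × ℤ, ∃ S : Finset ℤ, (∀ j, (F ⁻¹' (sq r k) ∩ cell (lam κ r / T) j).Nonempty →
      j ∈ S) ∧ (S.card : ℝ≥0∞) ≤ n := by
    intro k
    obtain ⟨S, g1, -, g3⟩ := k1 ⟨(k.1 + 1/2) * r, (k.2 + 1/2) * r⟩ _ hℓ hℓT.le
    refine ⟨S, ?_, ?_⟩
    · rintro j ⟨s, hs, hsj⟩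
      have := g1 s (sq_subset hr k hs)
      have e : ⌊(s:ℝ) / (lam κ r / T)⌋ = j := hsj
      rwa [e] at this
    · rw [← ENNReal.ofReal_natCast, hn]
      rw [hℓT] at g3
      exact ENNReal.ofReal_le_ofReal (g3.trans k5)
  -- intervals to squares
  have B : ∀ j : ℤ, ∃ R : Finset (ℤ × ℤ), (∀ k, (F ⁻¹' (sq r k) ∩ cell (lam κ r / T) j).Nonempty →
      k ∈ R) ∧ (R.card : ℝ≥0∞) ≤ 9 := by
    intro j
    rcases (cell (lam κ r / T) j).eq_empty_or_nonempty with hj | ⟨s0, hs0⟩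
    · refine ⟨∅, fun k hk => ?_, by simp⟩
      rw [hj, inter_empty] at hk
      exact absurd hk Set.not_nonempty_empty
    · obtain ⟨R, g1, g2⟩ := sq_near hr (F s0)
      refine ⟨R, ?_, by rw [g2]; norm_num⟩
      rintro k ⟨s, hs, hsj⟩
      refine g1 (F s) k ?_ hs
      refine (k2 s s0 ?_).trans k3
      rw [← hℓT]
      exact mul_le_mul_of_nonneg_right (cell_dist hℓ hsj hs0) hT.le
  rw [hmap]
  refine ⟨?_, ?_⟩
  · exact sum_compare ν (fun k => F ⁻¹' (sq r k)) (fun j => cell (lam κ r / T) j)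
      (fun x => ⟨_, rfl⟩) n 9 A B hq
  · refine sum_compare ν (fun j => cell (lam κ r / T) j) (fun k => F ⁻¹' (sq r k))
      (fun x => ⟨(⌊(F x).re / r⌋, ⌊(F x).im / r⌋), rfl, rfl⟩) 9 n ?_ ?_ hq
    · intro j
      obtain ⟨R, g1, g2⟩ := B j
      exact ⟨R, fun k hk => g1 k (by rwa [inter_comm]), g2⟩
    · intro k
      obtain ⟨S, g1, g2⟩ := A k
      exact ⟨S, fun j hj => g1 j (by rwa [inter_comm]), g2⟩

end Pool.Agent.N892.UP
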